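import Pool.Agent.Helper77.LM.Simp

/-!
Large exponents, block B (1): the uniform gain statement.
-/

set_option autoImplicit false

noncomputable section

open MeasureTheory Set Filter Topology
open scoped ENNReal

namespace Pool.Agent.Helper41.LP

open Pool.Agent.Helper77.LM

/-- the uniform gain inequality near the centered simplex of `ℝ^(m+1)`: cost `≤` gain -/
def S_GAIN (m : ℕ) : Prop :=
  ∃ η0 c ρ p0 : ℝ, 0 < η0 ∧ η0 < 1 ∧ 0 < c ∧ 0 < ρ ∧ 1 ≤ p0 ∧
    ∀ p : ℝ, p0 ≤ p → ∀ K : Set (Fin (m + 1) → ℝ), Near m η0 K →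
      ENNReal.ofReal ((1 + c) * (1 + 1 / p) *
        ((volume (Dl (m + 1) \ K)).toReal / V (m + 1)) * JJ p (m + 1))
      ≤ ∫⁻ y : Fin (m + 1) → ℝ, ENNReal.ofReal (Real.exp (-(ρ * hh y)) * uu p y *
          (-(1 / p) * Real.log (IS p K y / II p y)))

end Pool.Agent.Helper41.LP

end
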