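import Pool.Agent.Helper41.LP.B

/-!
Large exponents, block B (4): helper62's observation that the translations are free, so that the
gain statement is needed without the factor `exp (-ρ h)`.
-/

set_option autoImplicit false

noncomputable section

open MeasureTheory Set Filter Topology
open scoped ENNReal

namespace Pool.Agent.Helper41.LP

open Pool.Agent.Helper77.LM

variable {n m : ℕ}

/-- the uniform gain inequality near the centered simplex of `ℝ^(m+1)`: cost `≤` gain -/
def S_GAIN0 (m : ℕ) : Prop :=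
  ∃ η0 c p0 : ℝ, 0 < η0 ∧ η0 < 1 ∧ 0 < c ∧ 1 ≤ p0 ∧
    ∀ p : ℝ, p0 ≤ p → ∀ K : Set (Fin (m + 1) → ℝ), Near m η0 K →
      ENNReal.ofReal ((1 + c) * (1 + 1 / p) *
        ((volume (Dl (m + 1) \ K)).toReal / V (m + 1)) * JJ p (m + 1))
      ≤ ∫⁻ y : Fin (m + 1) → ℝ, ENNReal.ofReal (uu p y *
          (-(1 / p) * Real.log (IS p K y / II p y)))

lemma integrable_uu_dp {p : ℝ} (hp : 1 ≤ p) (z : Fin n → ℝ) :
    Integrable fun y : Fin n → ℝ => uu p y * dp z y := by
  obtain ⟨C, hC, h⟩ := uu_unif n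
  have hi4 := integrable_exp_hh (n := n) (c := 1 / 4) (by norm_num)
  have hmd : Measurable fun y : Fin n → ℝ => dp z y :=
    (continuous_dp.comp (continuous_const.prodMk continuous_id)).measurable
  refine (hi4.const_mul (C * (∑ i, |z i|) * n * 4)).mono'
    ((measurable_uu p).mul hmd).aestronglyMeasurable ?_
  refine Filter.Eventually.of_forall fun y => ?_
  have hp0 : 0 < p := by linarith
  rw [Real.norm_eq_abs, abs_mul, abs_of_pos (uu_pos hp0 y)]
  have h1 := abs_dp_le z y
  have h2 := hh_exp y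
  have h3 := h p hp y
  have hz : 0 ≤ ∑ i, |z i| := Finset.sum_nonneg fun _ _ => abs_nonneg _
  calc uu p y * |dp z y| ≤ (C * Real.exp (-(1 / 2 * hh y))) * ((∑ i, |z i|) * (n * hh y)) :=
        mul_le_mul h3 h1 (abs_nonneg _) (by positivity)
    _ = C * (∑ i, |z i|) * n * (hh y * Real.exp (-(1 / 2 * hh y))) := by ring
    _ ≤ C * (∑ i, |z i|) * n * (4 * Real.exp (-(1 / 4 * hh y))) :=
        mul_le_mul_of_nonneg_left h2 (by positivity)
    _ = _ := by ring

/-- the first moment of the weight vanishes -/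
lemma moment_zero {p : ℝ} (hp : 1 ≤ p) (z : Fin n → ℝ) :
    ∫ y : Fin n → ℝ, uu p y * dp z y = 0 := by
  have hinv : ∀ σ : Equiv.Perm (Fin (n + 1)), ∫ y : Fin n → ℝ, uu p y * dp (Tl σ z) y
      = ∫ y : Fin n → ℝ, uu p y * dp z y := by
    intro σ
    have h := (mp_Tt σ).integral_comp (Tt_emb σ) (fun y : Fin n → ℝ => uu p y * dp z y)
    simp only [uu_Tt] at h
    simp only [dp_Tl]
    exact h
  have h2 : ∑ k : Fin (n + 1), ∫ y : Fin n → ℝ, uu p y * dp (Tl (Equiv.addRight k) z) y = 0 := by
    rw [← integral_finsetSum _ (fun k _ => integrable_uu_dp hp _)]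
    have : ∀ y : Fin n → ℝ, ∑ k : Fin (n + 1), uu p y * dp (Tl (Equiv.addRight k) z) y = 0 := by
      intro y
      rw [← Finset.mul_sum]
      have : ∑ k : Fin (n + 1), dp (Tl (Equiv.addRight k) z) y
          = dp (∑ k : Fin (n + 1), Tl (Equiv.addRight k) z) y := by
        simp only [dp, Finset.sum_apply, Finset.sum_mul]
        exact Finset.sum_comm
      rw [this, sum_rot]
      simp [dp]
    simp only [this, integral_zero]
  simp only [hinv, Finset.sum_const, Finset.card_univ, Fintype.card_fin, nsmul_eq_mul] at h2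
  have : (((n + 1 : ℕ) : ℝ)) ≠ 0 := by positivity
  exact (mul_eq_zero.1 h2).resolve_left this

/-- the translations are free -/
lemma free_translation {p : ℝ} (hp : 1 ≤ p) (z : Fin n → ℝ) (L : (Fin n → ℝ) → ℝ)
    (hL0 : ∀ y, 0 ≤ L y) (G : ℝ≥0∞)
    (hG : G ≤ ∫⁻ y : Fin n → ℝ, ENNReal.ofReal (uu p y * L y)) :
    ENNReal.ofReal (JJ p n) + G
      ≤ ∫⁻ y : Fin n → ℝ, ENNReal.ofReal (Real.exp (dp z y) * (uu p y * Real.exp (L y))) := by
  have hp0 : 0 < p := by linarith
  have hint := integrable_uu_dp hp z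
  have hmd : Measurable fun y : Fin n → ℝ => dp z y :=
    (continuous_dp.comp (continuous_const.prodMk continuous_id)).measurable
  -- the positive and negative parts of the first moment
  set P : ℝ≥0∞ := ∫⁻ y : Fin n → ℝ, ENNReal.ofReal (uu p y * dp z y) with hP
  set N : ℝ≥0∞ := ∫⁻ y : Fin n → ℝ, ENNReal.ofReal (-(uu p y * dp z y)) with hN
  have hPf : P ≠ ∞ := (hint.lintegral_lt_top).ne
  have hNf : N ≠ ∞ := (hint.neg.lintegral_lt_top).ne
  have hPN : P = N := by
    have h1 := integral_eq_lintegral_pos_part_sub_lintegral_neg_part hint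
    rw [moment_zero hp z] at h1
    have h2 : P.toReal = N.toReal := by rw [hP, hN]; linarith
    exact (ENNReal.toReal_eq_toReal_iff' hPf hNf).1 h2
  have hkey : (ENNReal.ofReal (JJ p n) + G) + P
      ≤ (∫⁻ y : Fin n → ℝ, ENNReal.ofReal (Real.exp (dp z y) * (uu p y * Real.exp (L y)))) + N := by
    have e1 : ENNReal.ofReal (JJ p n) = ∫⁻ y : Fin n → ℝ, ENNReal.ofReal (uu p y) := by
      rw [JJ, ofReal_integral_eq_lintegral_ofReal (integrable_uu hp0 n)
        (Filter.Eventually.of_forall fun y => (uu_pos hp0 y).le)]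
    rw [e1]
    refine (add_le_add (add_le_add le_rfl hG) le_rfl).trans ?_
    have hm1 : Measurable fun y : Fin n → ℝ => ENNReal.ofReal (uu p y * dp z y) :=
      ((measurable_uu p).mul hmd).ennreal_ofReal
    have hm2 : Measurable fun y : Fin n → ℝ => ENNReal.ofReal (-(uu p y * dp z y)) :=
      ((measurable_uu p).mul hmd).neg.ennreal_ofReal
    rw [hP, hN, ← lintegral_add_left (measurable_uu p).ennreal_ofReal,
      ← lintegral_add_right _ hm1, ← lintegral_add_right _ hm2]
    refine lintegral_mono fun y => ?_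
    have hu := uu_pos hp0 y
    have hl := hL0 y
    have h1 := Real.add_one_le_exp (dp z y + L y)
    have h2 : Real.exp (dp z y) * (uu p y * Real.exp (L y))
        = uu p y * Real.exp (dp z y + L y) := by
      rw [Real.exp_add]; ring
    have h3 := mul_le_mul_of_nonneg_left h1 hu.le
    have h4 : 0 ≤ uu p y * L y := mul_nonneg hu.le hl
    have h5 : 0 ≤ uu p y * Real.exp (dp z y + L y) := by positivity
    rw [h2, ← ENNReal.ofReal_add hu.le h4]
    rcases le_total 0 (dp z y) with hz | hz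
    · have h6 : 0 ≤ uu p y * dp z y := mul_nonneg hu.le hz
      rw [← ENNReal.ofReal_add (by positivity) h6]
      refine le_trans (ENNReal.ofReal_le_ofReal ?_) le_self_add
      linarith
    · have h6 : uu p y * dp z y ≤ 0 := mul_nonpos_of_nonneg_of_nonpos hu.le hz
      rw [ENNReal.ofReal_of_nonpos h6, add_zero, ← ENNReal.ofReal_add h5 (by linarith)]
      refine ENNReal.ofReal_le_ofReal ?_
      linarith
  rw [hPN] at hkey
  exact (ENNReal.add_le_add_iff_right hNf).1 hkey

/-- **The uniform lower bound near the centered simplex.** -/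
theorem near_low0 {m : ℕ} (hG : S_GAIN0 m) : ∃ η0 δ c p1 : ℝ, 0 < η0 ∧ η0 < 1 ∧ 0 < δ ∧ 0 < c ∧
    1 ≤ p1 ∧ ∀ p : ℝ, p1 ≤ p →
    ∀ K : Set (Fin (m + 1) → ℝ), Near m η0 K → (volume (Dl (m + 1) \ K)).toReal ≤ δ →
      ∀ z : Fin (m + 1) → ℝ,
        ENNReal.ofReal (V (m + 1) ^ (1 + 1 / p) * (JJ p (m + 1) *
          (1 + c * (volume (Dl (m + 1) \ K)).toReal)))
        ≤ MpF p ((fun x => x - z) '' K) := by
  obtain ⟨η0, c, p0, hη0, hη1, hc, hp0, hgain⟩ := hG
  have hV := V_pos (m + 1)
  set δ : ℝ := c / (4 * (1 + c)) * V (m + 1) with hδ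
  have hδ0 : 0 < δ := by positivity
  refine ⟨η0, δ, c / (2 * V (m + 1)), p0, hη0, hη1, hδ0, by positivity, hp0, ?_⟩
  intro p hp K hK hd z
  have hp1 : 1 ≤ p := hp0.trans hp
  have hppos : 0 < p := by linarith
  set D : Set (Fin (m + 1) → ℝ) := Dl (m + 1) \ K with hD
  have hmD : MeasurableSet D := isClosed_Dl.measurableSet.diff hK.closed.measurableSet
  have hDs : D ⊆ Dl (m + 1) := Set.sdiff_subset
  set d : ℝ := (volume D).toReal with hdd
  have hd0 : 0 ≤ d := ENNReal.toReal_nonneg
  set v : ℝ := d / V (m + 1) with hv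
  have hv0 : 0 ≤ v := by positivity
  have hv1 : v ≤ c / (4 * (1 + c)) := by
    rw [hv, div_le_iff₀ hV]
    exact hd
  have hv4 : v ≤ 1 / 4 := by
    refine hv1.trans ?_
    rw [div_le_div_iff₀ (by linarith) (by norm_num)]
    linarith
  have hdv : d = v * V (m + 1) := by rw [hv]; field_simp
  have hfinK : volume K ≠ ∞ :=
    ((measure_mono hK.sub).trans_lt isCompact_Dl.measure_lt_top).ne
  have hfinD : volume D ≠ ∞ :=
    ((measure_mono hDs).trans_lt isCompact_Dl.measure_lt_top).ne
  have hvol : (volume K).toReal = V (m + 1) * (1 - v) := by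
    have h1 : volume (Dl (m + 1)) = volume K + volume D := by
      rw [hD, ← measure_union Set.disjoint_sdiff_right hmD, Set.union_sdiff_cancel hK.sub]
    have h2 : V (m + 1) = (volume K).toReal + d := by
      rw [V, h1, ENNReal.toReal_add hfinK hfinD]
    rw [hdv] at h2
    linarith
  have hkpos : 0 < (volume K).toReal := by
    rw [hvol]
    exact mul_pos hV (by linarith)
  have hmK : MeasurableSet K := hK.closed.measurableSet
  have hISK : ∀ y, 0 < IS p K y := by
    intro y
    have h : ∫ _x in K, Real.exp (-(p * ((m + 1 : ℕ) * hh y))) ≤ IS p K y := by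
      refine setIntegral_mono_on ?_ ((integrableOn_exp p y isCompact_Dl).mono_set hK.sub) hmK ?_
      · exact integrableOn_const hfinK
      · intro x hx
        refine Real.exp_le_exp.2 ?_
        have := mul_le_mul_of_nonneg_left (le_dp (hK.sub hx) y) hppos.le
        linarith
    refine lt_of_lt_of_le ?_ h
    simp only [integral_const, smul_eq_mul, Measure.real, Measure.restrict_apply_univ]
    positivity
  have hIle : ∀ y, IS p K y ≤ II p y := fun y =>
    setIntegral_mono_set (integrableOn_exp p y isCompact_Dl)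
      (Filter.Eventually.of_forall fun x => (Real.exp_pos _).le) hK.sub.eventuallyLE
  have hL0 : ∀ y, 0 ≤ -(1 / p) * Real.log (IS p K y / II p y) := by
    intro y
    have h1 : IS p K y / II p y ≤ 1 := (div_le_one (II_pos hppos y)).2 (hIle y)
    have h2 := Real.log_nonpos (div_nonneg (hISK y).le (II_pos hppos y).le) h1
    have h3 : 0 < 1 / p := by positivity
    nlinarith
  have hpt : ∀ y, IS p K y ^ (-(1 / p)) = uu p y *
        Real.exp (-(1 / p) * Real.log (IS p K y / II p y)) := by
    intro y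
    have h2 : IS p K y = II p y * (IS p K y / II p y) := by
      have := (II_pos hppos y).ne'
      field_simp
    conv_lhs => rw [h2]
    rw [Real.mul_rpow (II_pos hppos y).le (div_nonneg (hISK y).le (II_pos hppos y).le)]
    congr 1
    rw [Real.rpow_def_of_pos (div_pos (hISK y) (II_pos hppos y)), mul_comm]
  set J : ℝ := JJ p (m + 1) with hJdef
  have hJ : 0 < J := JJ_pos hppos _
  have hq1 : 1 ≤ 1 + 1 / p := by
    have : 0 < 1 / p := by positivity
    linarith
  have hq2 : 1 + 1 / p ≤ 2 := by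
    have : 1 / p ≤ 1 := by rw [div_le_one hppos]; exact hp1
    linarith
  have hg := hgain p hp K hK
  rw [← hD, ← hdd, ← hv, ← hJdef] at hg
  have h0 := free_translation hp1 z (fun y => -(1 / p) * Real.log (IS p K y / II p y)) hL0 _ hg
  rw [← hJdef, ← ENNReal.ofReal_add hJ.le (by positivity)] at h0
  have hT : ENNReal.ofReal (J * (1 + (1 + c) * (1 + 1 / p) * v))
      ≤ ∫⁻ y : Fin (m + 1) → ℝ, ENNReal.ofReal (Real.exp (dp z y) * IS p K y ^ (-(1 / p))) := by
    simp only [hpt]
    refine le_trans (le_of_eq ?_) h0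
    congr 1
    ring
  rw [MpF_translate hppos hfinK hkpos z]
  refine le_trans ?_ (mul_le_mul_right hT _)
  rw [← ENNReal.ofReal_mul (by positivity)]
  refine ENNReal.ofReal_le_ofReal ?_
  rw [hvol, Real.mul_rpow hV.le (by linarith), hdv]
  have e1 : c / (2 * V (m + 1)) * (v * V (m + 1)) = c / 2 * v := by field_simp
  rw [e1]
  have h1 : 0 ≤ V (m + 1) ^ (1 + 1 / p) * J := by positivity
  have hF := real1 hc hq1 hq2 hv0 hv1
  calc V (m + 1) ^ (1 + 1 / p) * (J * (1 + c / 2 * v))
      = V (m + 1) ^ (1 + 1 / p) * J * (1 + c / 2 * v) := by ring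
    _ ≤ V (m + 1) ^ (1 + 1 / p) * J * ((1 - v) ^ (1 + 1 / p) *
          (1 + (1 + c) * (1 + 1 / p) * v)) :=
        mul_le_mul_of_nonneg_left hF h1
    _ = _ := by ring

/-- **The theorem near the simplices, uniformly in large `p`.** -/
theorem near_u0 {m : ℕ} (hG : S_GAIN0 m) : ∃ δ p1 : ℝ, 0 < δ ∧ 1 ≤ p1 ∧ ∀ p : ℝ, p1 ≤ p →
    ∀ K T₀ : Set (Fin (m + 1) → ℝ),
    Convex ℝ K → IsCompact K → (interior K).Nonempty → IsSimplex T₀ → K ⊆ T₀ →
    volume T₀ ≤ ENNReal.ofReal (1 + δ) * volume K →
    ((⨅ x ∈ stdS (m + 1), MpF p ((fun z => z - x) '' stdS (m + 1))) ≤ MpF p K) ∧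
    (MpF p K = (⨅ x ∈ stdS (m + 1), MpF p ((fun z => z - x) '' stdS (m + 1))) → IsSimplex K) ∧
    ∃ T : Set (Fin (m + 1) → ℝ), IsSimplex T ∧ K ⊆ T ∧ volume T ≤ volume T₀ ∧
      ENNReal.ofReal (1 + δ * ((volume T).toReal / (volume K).toReal - 1)) *
        (⨅ x ∈ stdS (m + 1), MpF p ((fun z => z - x) '' stdS (m + 1))) ≤ MpF p K := by
  obtain ⟨η0, δ1, c1, p1, hη0, hη1, hδ1, hc1, hp1, hlow⟩ := near_low0 hG
  obtain ⟨δ, hδ, h0⟩ := main_u m hη0 hη1 hδ1 hc1
  refine ⟨δ, p1, hδ, hp1, ?_⟩
  intro p hpp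
  have hp : 0 < p := by linarith
  have h := h0 p hp (hlow p hpp)
  intro K T₀ hcv hcp hin hT₀ hKT hvol
  obtain ⟨T, hT, hKsub, hTv, hlow⟩ := h K T₀ hcv hcp hin (simD_of_isSimplex hT₀) hKT hvol
  rw [inf_eq hp m]
  have hVK : 0 < volume K := Measure.measure_pos_of_nonempty_interior volume hin
  have hVKf : volume K ≠ ∞ := hcp.measure_lt_top.ne
  have hVT : volume T ≠ ∞ := by
    obtain ⟨A, c, hA, rfl⟩ := hT
    rw [volume_SimD A hA c]
    exact ENNReal.mul_ne_top ENNReal.ofReal_ne_top vol_ne_top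
  have hk0 : 0 < (volume K).toReal := ENNReal.toReal_pos hVK.ne' hVKf
  have hmono : (volume K).toReal ≤ (volume T).toReal :=
    ENNReal.toReal_mono hVT (measure_mono hKsub)
  have hr : 0 ≤ (volume T).toReal / (volume K).toReal - 1 := by
    rw [sub_nonneg, le_div_iff₀ hk0]; linarith
  refine ⟨?_, ?_, T, isSimplex_of_simD hT, hKsub, hTv, hlow⟩
  · refine le_trans ?_ hlow
    conv_lhs => rw [← one_mul (MpF p (Dl (m + 1)))]
    refine mul_le_mul' ?_ le_rfl
    rw [← ENNReal.ofReal_one]
    refine ENNReal.ofReal_le_ofReal ?_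
    have := mul_nonneg hδ.le hr
    linarith
  · intro heq
    rw [heq] at hlow
    have h1 : ENNReal.ofReal (1 + δ * ((volume T).toReal / (volume K).toReal - 1)) ≤ 1 := by
      by_contra hc
      rw [not_le] at hc
      have h2 : 1 * MpF p (Dl (m + 1)) < ENNReal.ofReal
          (1 + δ * ((volume T).toReal / (volume K).toReal - 1)) * MpF p (Dl (m + 1)) :=
        ENNReal.mul_lt_mul_left (MpF_Dl_pos hp _) (MpF_Dl_ne_top hp _) hc
      rw [one_mul] at h2
      exact absurd hlow (not_le.2 h2)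
    have h3 : δ * ((volume T).toReal / (volume K).toReal - 1) ≤ 0 := by
      rw [← ENNReal.ofReal_one, ENNReal.ofReal_le_ofReal_iff zero_le_one] at h1
      linarith
    have h4 : (volume T).toReal / (volume K).toReal - 1 ≤ 0 := by
      by_contra hc
      rw [not_le] at hc
      have := mul_pos hδ hc
      linarith
    have h5 : (volume T).toReal ≤ (volume K).toReal := by
      rw [sub_nonpos, div_le_one hk0] at h4
      exact h4
    have h6 : volume T ≤ volume K := (ENNReal.toReal_le_toReal hVT hVKf).1 h5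
    -- equality of the sets
    have hdiff : volume (T \ K) = 0 := by
      rw [measure_sdiff hKsub hcp.isClosed.measurableSet.nullMeasurableSet hVKf]
      exact tsub_eq_zero_of_le h6
    have hint : interior T ⊆ K := by
      intro x hx
      by_contra hxK
      have hopen : IsOpen (interior T \ K) := isOpen_interior.sdiff hcp.isClosed
      have hpos : 0 < volume (interior T \ K) := hopen.measure_pos _ ⟨x, hx, hxK⟩
      have : volume (interior T \ K) ≤ volume (T \ K) :=
        measure_mono (Set.sdiff_subset_sdiff_left interior_subset)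
      rw [hdiff] at this
      exact absurd hpos (not_lt.2 this)
    have hTK : T ⊆ K := (closure_interior_of_SimD hT).trans
      (hcp.isClosed.closure_subset_iff.2 hint)
    have : K = T := Set.Subset.antisymm hKsub hTK
    rw [this]
    exact isSimplex_of_simD hT


end Pool.Agent.Helper41.LP

end
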