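import Pool.Agent.Helper41.LP.Gain

/-!
Large exponents, block B (2): the uniform lower bound near the centered simplex, in any position.
-/

set_option autoImplicit false

noncomputable section

open MeasureTheory Set Filter Topology
open scoped ENNReal

namespace Pool.Agent.Helper41.LP

open Pool.Agent.Helper77.LM

variable {n m : ℕ}

/-- uniform bound of the integrand -/
lemma uu_unif (n : ℕ) : ∃ C > 0, ∀ p : ℝ, 1 ≤ p → ∀ y : Fin n → ℝ,
    uu p y ≤ C * Real.exp (-(1 / 2 * hh y)) := by
  set t : ℝ := 1 / (2 * (n + 1)) with ht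
  have ht0 : 0 < t := by positivity
  have ht1 : t ≤ 1 := by
    rw [ht, div_le_one (by positivity)]
    have h1 : (1 : ℝ) ≤ n + 1 := by linarith [(Nat.cast_nonneg n : (0 : ℝ) ≤ n)]
    linarith
  have hV := V_pos n
  set A : ℝ := t ^ n * V n with hA
  have hA0 : 0 < A := by positivity
  refine ⟨max 1 A⁻¹, by positivity, fun p hp y => ?_⟩
  have hp0 : 0 < p := by linarith
  have h1 := le_II hp0 ht0 ht1 y
  have e : (n + 1 : ℝ) * t = 1 / 2 := by
    rw [ht]; field_simp
  rw [e] at h1
  have h2 : 0 < A * Real.exp (p * (1 - 1 / 2) * hh y) := by positivity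
  have hz : -(1 / p) ≤ 0 := by
    have : 0 < 1 / p := by positivity
    linarith
  have h3 := Real.rpow_le_rpow_of_nonpos h2 h1 hz
  refine h3.trans ?_
  rw [Real.mul_rpow (by positivity) (Real.exp_pos _).le, ← Real.exp_mul]
  have e2 : p * (1 - 1 / 2) * hh y * -(1 / p) = -(1 / 2 * hh y) := by
    field_simp
    ring
  rw [e2]
  refine mul_le_mul_of_nonneg_right ?_ (Real.exp_pos _).le
  have hip : 1 / p ≤ 1 := by
    rw [div_le_one hp0]; exact hp
  rcases le_total 1 A with hA1 | hA1
  · exact (Real.rpow_le_one_of_one_le_of_nonpos hA1 hz).trans (le_max_left _ _)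
  · refine le_trans ?_ (le_max_right _ _)
    have h4 := Real.rpow_le_rpow_of_exponent_ge hA0 hA1 (show (-1 : ℝ) ≤ -(1 / p) by linarith)
    rwa [Real.rpow_neg_one] at h4

lemma JJ_unif (n : ℕ) : ∃ C > 0, ∀ p : ℝ, 1 ≤ p → JJ p n ≤ C := by
  obtain ⟨C, hC, h⟩ := uu_unif n
  have hi := (integrable_exp_hh (n := n) (c := 1 / 2) (by norm_num)).const_mul C
  refine ⟨(∫ y : Fin n → ℝ, C * Real.exp (-(1 / 2 * hh y))) + 1, ?_, fun p hp => ?_⟩
  · have : 0 ≤ ∫ y : Fin n → ℝ, C * Real.exp (-(1 / 2 * hh y)) :=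
      integral_nonneg fun y => (mul_pos hC (Real.exp_pos _)).le
    linarith
  · have hp0 : 0 < p := by linarith
    have : JJ p n ≤ ∫ y : Fin n → ℝ, C * Real.exp (-(1 / 2 * hh y)) :=
      integral_mono (integrable_uu hp0 n) hi (h p hp)
    linarith

/-- the zeroth order term, uniformly in `p ≥ 1` -/
lemma Q1_unif (n : ℕ) : ∃ κ > 0, ∀ p : ℝ, 1 ≤ p → ∀ z : Fin n → ℝ,
    ENNReal.ofReal (JJ p n + κ * qf z)
      ≤ ∫⁻ y : Fin n → ℝ, ENNReal.ofReal (Real.exp (dp z y) * uu p y) := by
  set a : ℝ := 1 / (n + 1) with ha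
  have ha0 : 0 < a := by positivity
  have hna : (n : ℝ) * a ≤ 1 := by
    rw [ha, mul_one_div, div_le_one (by positivity)]; linarith
  obtain ⟨c, hc, hq⟩ := box_half n ha0
  have hV := V_pos n
  have hn : (0 : ℝ) < n + 1 := by positivity
  set w1 : ℝ := min 1 (V n)⁻¹ * Real.exp (-1) with hw1
  have hw1p : 0 < w1 := by positivity
  refine ⟨w1 * c / (2 * (n + 1)), by positivity, fun p hp1 z => ?_⟩
  have hp : 0 < p := by linarith
  have hw : ∀ y ∈ Bx n a, w1 ≤ uu p y := by
    intro y hy
    have hz : -(1 / p) ≤ 0 := by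
      have : 0 < 1 / p := by positivity
      linarith
    have h1 : (V n * Real.exp p) ^ (-(1 / p)) ≤ uu p y := by
      refine Real.rpow_le_rpow_of_nonpos (II_pos hp y) ?_ hz
      refine (II_le hp y).trans ?_
      refine mul_le_mul_of_nonneg_left (Real.exp_le_exp.2 ?_) hV.le
      have := hh_le_one hna hy
      nlinarith
    refine le_trans ?_ h1
    rw [Real.mul_rpow hV.le (Real.exp_pos _).le, ← Real.exp_mul]
    have e2 : p * -(1 / p) = -1 := by field_simp
    rw [e2]
    refine mul_le_mul_of_nonneg_right ?_ (Real.exp_pos _).le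
    have hip : 1 / p ≤ 1 := by
      rw [div_le_one hp]; exact hp1
    rcases le_total 1 (V n) with hV1 | hV1
    · refine (min_le_right _ _).trans ?_
      have h4 := Real.rpow_le_rpow_of_exponent_le hV1 (show (-1 : ℝ) ≤ -(1 / p) by linarith)
      rwa [Real.rpow_neg_one] at h4
    · refine (min_le_left _ _).trans ?_
      exact Real.one_le_rpow_of_pos_of_le_one_of_nonpos hV hV1 hz
  set q : (Fin n → ℝ) → ℝ := (Bx n a).indicator (fun y => w1 / (2 * (n + 1)) *
    (max (dp z y) 0) ^ 2) with hqd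
  have hcont : Continuous fun y : Fin n → ℝ => w1 / (2 * (n + 1)) * (max (dp z y) 0) ^ 2 := by
    unfold dp; fun_prop
  have hqi : Integrable q := by
    rw [hqd, integrable_indicator_iff (measurableSet_Bx a)]
    exact integrableOn_box hcont a
  have hqv : ∫ y, q y = w1 * c / (2 * (n + 1)) * qf z := by
    rw [hqd, integral_indicator (measurableSet_Bx a), integral_const_mul, hq z]
    ring
  have hsum : ∀ y : Fin n → ℝ, ((n : ℝ) + 1) * (uu p y + q y)
      ≤ ∑ k : Fin (n + 1), Real.exp (dp (Tl (Equiv.addRight k) z) y) * uu p y := by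
    intro y
    rw [← Finset.sum_mul]
    have hu := uu_pos hp y
    have h0 : ∑ k : Fin (n + 1), dp (Tl (Equiv.addRight k) z) y = 0 := by
      have : ∑ k : Fin (n + 1), dp (Tl (Equiv.addRight k) z) y
          = dp (∑ k : Fin (n + 1), Tl (Equiv.addRight k) z) y := by
        simp only [dp, Finset.sum_apply, Finset.sum_mul]
        exact Finset.sum_comm
      rw [this, sum_rot]
      simp [dp]
    have h1 : ∑ k : Fin (n + 1), (1 + dp (Tl (Equiv.addRight k) z) y
        + (max (dp (Tl (Equiv.addRight k) z) y) 0) ^ 2 / 2)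
        ≤ ∑ k : Fin (n + 1), Real.exp (dp (Tl (Equiv.addRight k) z) y) :=
      Finset.sum_le_sum fun k _ => exp_ge _
    rw [Finset.sum_add_distrib, Finset.sum_add_distrib, h0] at h1
    have h2 : (max (dp z y) 0) ^ 2 / 2 ≤ ∑ k : Fin (n + 1),
        (max (dp (Tl (Equiv.addRight k) z) y) 0) ^ 2 / 2 := by
      have e : Tl (Equiv.addRight (0 : Fin (n + 1))) z = z := by
        have : (Equiv.addRight (0 : Fin (n + 1))) = 1 := by
          ext i; simp
        rw [this, Tl_one]
      have := Finset.single_le_sum (f := fun k : Fin (n + 1) =>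
        (max (dp (Tl (Equiv.addRight k) z) y) 0) ^ 2 / 2) (fun k _ => by positivity)
        (Finset.mem_univ (0 : Fin (n + 1)))
      simp only [e] at this
      exact this
    simp only [Finset.sum_const, Finset.card_univ, Fintype.card_fin, nsmul_eq_mul, mul_one,
      add_zero] at h1
    push_cast at h1
    have h3 : ((n : ℝ) + 1) * q y ≤ (max (dp z y) 0) ^ 2 / 2 * uu p y := by
      by_cases hy : y ∈ Bx n a
      · rw [hqd, Set.indicator_of_mem hy]
        have h4 := hw y hy
        have h5 : 0 ≤ (max (dp z y) 0) ^ 2 / 2 := by positivity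
        calc ((n : ℝ) + 1) * (w1 / (2 * (n + 1)) * (max (dp z y) 0) ^ 2)
            = (max (dp z y) 0) ^ 2 / 2 * w1 := by field_simp
          _ ≤ _ := mul_le_mul_of_nonneg_left h4 h5
      · rw [hqd, Set.indicator_of_notMem hy, mul_zero]
        positivity
    have h6 : ((n : ℝ) + 1 + (max (dp z y) 0) ^ 2 / 2) * uu p y
        ≤ (∑ k : Fin (n + 1), Real.exp (dp (Tl (Equiv.addRight k) z) y)) * uu p y :=
      mul_le_mul_of_nonneg_right (by linarith) hu.le
    nlinarith
  -- integrate
  have hL : ENNReal.ofReal (((n : ℝ) + 1) * (JJ p n + w1 * c / (2 * (n + 1)) * qf z))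
      ≤ ENNReal.ofReal ((n : ℝ) + 1) *
        ∫⁻ y : Fin n → ℝ, ENNReal.ofReal (Real.exp (dp z y) * uu p y) := by
    have e1 : ((n : ℝ) + 1) * (JJ p n + w1 * c / (2 * (n + 1)) * qf z)
        = ∫ y : Fin n → ℝ, ((n : ℝ) + 1) * (uu p y + q y) := by
      rw [integral_const_mul, integral_add (integrable_uu hp n) hqi, hqv]
      rfl
    have hi : Integrable (fun y : Fin n → ℝ => ((n : ℝ) + 1) * (uu p y + q y)) :=
      ((integrable_uu hp n).add hqi).const_mul _
    rw [e1]
    refine (ofReal_integral_le hi).trans ?_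
    refine (lintegral_mono fun y => ENNReal.ofReal_le_ofReal (hsum y)).trans ?_
    have e2 : ∀ y : Fin n → ℝ, ENNReal.ofReal
        (∑ k : Fin (n + 1), Real.exp (dp (Tl (Equiv.addRight k) z) y) * uu p y)
        = ∑ k : Fin (n + 1), ENNReal.ofReal
          (Real.exp (dp (Tl (Equiv.addRight k) z) y) * uu p y) := fun y =>
      ENNReal.ofReal_sum_of_nonneg fun k _ => by
        have := uu_pos hp y
        positivity
    simp only [e2]
    rw [lintegral_finsetSum]
    · simp only [Q1_Tl, Finset.sum_const, Finset.card_univ, Fintype.card_fin, nsmul_eq_mul]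
      refine le_of_eq ?_
      congr 1
      have : ((n : ℝ) + 1) = ((n + 1 : ℕ) : ℝ) := by push_cast; ring
      rw [this, ENNReal.ofReal_natCast]
    · intro k _
      exact ((measurable_exp_dp _).mul (measurable_uu p)).ennreal_ofReal
  rw [ENNReal.ofReal_mul hn.le] at hL
  exact (ENNReal.mul_le_mul_iff_right (by simpa using hn) ENNReal.ofReal_ne_top).1 hL

/-- real inequality, position near the centroid -/
lemma real1 {c q v : ℝ} (hc : 0 < c) (hq1 : 1 ≤ q) (hq2 : q ≤ 2) (hv : 0 ≤ v)
    (hv2 : v ≤ c / (4 * (1 + c))) :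
    1 + c / 2 * v ≤ (1 - v) ^ q * (1 + (1 + c) * q * v) := by
  have h4 : 0 < 4 * (1 + c) := by linarith
  rw [le_div_iff₀ h4] at hv2
  have hv1 : v ≤ 1 / 4 := by nlinarith
  have hb := one_add_mul_self_le_rpow_one_add (s := -v) (by linarith) hq1
  have e : (1 : ℝ) + -v = 1 - v := by ring
  rw [e] at hb
  have hx : (1 + c) * (q * v) ≤ c / 2 := by nlinarith [mul_nonneg hc.le hv]
  have hx0 : 0 ≤ q * v := by positivity
  have h1 : 1 + c / 2 * v ≤ (1 + q * -v) * (1 + (1 + c) * q * v) := by
    have : (1 + q * -v) * (1 + (1 + c) * q * v) =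
        1 + c * (q * v) - (q * v) * ((1 + c) * (q * v)) := by ring
    rw [this]
    have h2 : (q * v) * ((1 + c) * (q * v)) ≤ (q * v) * (c / 2) :=
      mul_le_mul_of_nonneg_left hx hx0
    have h3 : c / 2 * v ≤ c / 2 * (q * v) := by
      refine mul_le_mul_of_nonneg_left ?_ (by positivity)
      nlinarith
    nlinarith
  refine h1.trans (mul_le_mul_of_nonneg_right hb ?_)
  positivity

/-- real inequality, position away from the centroid -/
lemma real2 {c q v k : ℝ} (hc : 0 < c) (hk : 0 < k) (hq1 : 1 ≤ q) (hq2 : q ≤ 2) (hv : 0 ≤ v)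
    (hv2 : v ≤ k / (4 * (1 + k))) (hv3 : c * v ≤ k) :
    1 + c / 2 * v ≤ (1 - v) ^ q * (1 + k) := by
  have h4 : 0 < 4 * (1 + k) := by linarith
  rw [le_div_iff₀ h4] at hv2
  have hv1 : v ≤ 1 / 4 := by nlinarith
  have hb := one_add_mul_self_le_rpow_one_add (s := -v) (by linarith) hq1
  have e : (1 : ℝ) + -v = 1 - v := by ring
  rw [e] at hb
  have h1 : 1 + c / 2 * v ≤ (1 + q * -v) * (1 + k) := by
    have h2 : q * v * (1 + k) ≤ 2 * v * (1 + k) := by
      refine mul_le_mul_of_nonneg_right ?_ (by linarith)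
      exact mul_le_mul_of_nonneg_right hq2 hv
    nlinarith
  exact h1.trans (mul_le_mul_of_nonneg_right hb (by linarith))

/-- **The uniform lower bound near the centered simplex.** -/
theorem near_low {m : ℕ} (hG : S_GAIN m) : ∃ η0 δ c p1 : ℝ, 0 < η0 ∧ η0 < 1 ∧ 0 < δ ∧ 0 < c ∧
    1 ≤ p1 ∧ ∀ p : ℝ, p1 ≤ p →
    ∀ K : Set (Fin (m + 1) → ℝ), Near m η0 K → (volume (Dl (m + 1) \ K)).toReal ≤ δ →
      ∀ z : Fin (m + 1) → ℝ,
        ENNReal.ofReal (V (m + 1) ^ (1 + 1 / p) * (JJ p (m + 1) *
          (1 + c * (volume (Dl (m + 1) \ K)).toReal)))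
        ≤ MpF p ((fun x => x - z) '' K) := by
  obtain ⟨η0, c, ρ, p0, hη0, hη1, hc, hρ, hp0, hgain⟩ := hG
  obtain ⟨κ, hκ, hQ1⟩ := Q1_unif (m + 1)
  obtain ⟨CJ, hCJ, hJJ⟩ := JJ_unif (m + 1)
  have hV := V_pos (m + 1)
  have hn : (0 : ℝ) < ((m + 1 : ℕ) : ℝ) := by positivity
  set k : ℝ := κ * (ρ / ((m + 1 : ℕ) : ℝ)) ^ 2 / ((m + 1 : ℕ) : ℝ) / CJ with hk
  have hk0 : 0 < k := by positivity
  set δ : ℝ := min (c / (4 * (1 + c)) * V (m + 1))
    (min (k / (4 * (1 + k)) * V (m + 1)) (k / c * V (m + 1))) with hδ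
  have hδ0 : 0 < δ := by positivity
  refine ⟨η0, δ, c / (2 * V (m + 1)), p0, hη0, hη1, hδ0, by positivity, hp0, ?_⟩
  intro p hp K hK hd z
  have hp1 : 1 ≤ p := hp0.trans hp
  have hppos : 0 < p := by linarith
  set D : Set (Fin (m + 1) → ℝ) := Dl (m + 1) \ K with hD
  have hmD : MeasurableSet D := isClosed_Dl.measurableSet.diff hK.closed.measurableSet
  have hDs : D ⊆ Dl (m + 1) := Set.sdiff_subset
  set d : ℝ := (volume D).toReal with hdd
  have hd0 : 0 ≤ d := ENNReal.toReal_nonneg
  set v : ℝ := d / V (m + 1) with hv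
  have hv0 : 0 ≤ v := by positivity
  have hv1 : v ≤ c / (4 * (1 + c)) := by
    rw [hv, div_le_iff₀ hV]
    exact hd.trans (min_le_left _ _)
  have hv2 : v ≤ k / (4 * (1 + k)) := by
    rw [hv, div_le_iff₀ hV]
    exact hd.trans ((min_le_right _ _).trans (min_le_left _ _))
  have hv3 : c * v ≤ k := by
    have : v ≤ k / c := by
      rw [hv, div_le_iff₀ hV]
      exact hd.trans ((min_le_right _ _).trans (min_le_right _ _))
    rwa [le_div_iff₀ hc, mul_comm] at this
  have hv4 : v ≤ 1 / 4 := by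
    refine hv1.trans ?_
    rw [div_le_div_iff₀ (by linarith) (by norm_num)]
    linarith
  have hdv : d = v * V (m + 1) := by rw [hv]; field_simp
  have hfinK : volume K ≠ ∞ :=
    ((measure_mono hK.sub).trans_lt isCompact_Dl.measure_lt_top).ne
  have hfinD : volume D ≠ ∞ :=
    ((measure_mono hDs).trans_lt isCompact_Dl.measure_lt_top).ne
  have hvol : (volume K).toReal = V (m + 1) * (1 - v) := by
    have h1 : volume (Dl (m + 1)) = volume K + volume D := by
      rw [hD, ← measure_union Set.disjoint_sdiff_right hmD, Set.union_sdiff_cancel hK.sub]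
    have h2 : V (m + 1) = (volume K).toReal + d := by
      rw [V, h1, ENNReal.toReal_add hfinK hfinD]
    rw [hdv] at h2
    linarith
  have hkpos : 0 < (volume K).toReal := by
    rw [hvol]
    exact mul_pos hV (by linarith)
  have hmK : MeasurableSet K := hK.closed.measurableSet
  have hISK : ∀ y, 0 < IS p K y := by
    intro y
    have h : ∫ _x in K, Real.exp (-(p * ((m + 1 : ℕ) * hh y))) ≤ IS p K y := by
      refine setIntegral_mono_on ?_ ((integrableOn_exp p y isCompact_Dl).mono_set hK.sub) hmK ?_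
      · exact integrableOn_const hfinK
      · intro x hx
        refine Real.exp_le_exp.2 ?_
        have := mul_le_mul_of_nonneg_left (le_dp (hK.sub hx) y) hppos.le
        linarith
    refine lt_of_lt_of_le ?_ h
    simp only [integral_const, smul_eq_mul, Measure.real, Measure.restrict_apply_univ]
    positivity
  have hIle : ∀ y, IS p K y ≤ II p y := fun y =>
    setIntegral_mono_set (integrableOn_exp p y isCompact_Dl)
      (Filter.Eventually.of_forall fun x => (Real.exp_pos _).le) hK.sub.eventuallyLE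
  -- the pointwise inequality
  have hL0 : ∀ y, 0 ≤ -(1 / p) * Real.log (IS p K y / II p y) := by
    intro y
    have h1 : IS p K y / II p y ≤ 1 := (div_le_one (II_pos hppos y)).2 (hIle y)
    have h2 := Real.log_nonpos (div_nonneg (hISK y).le (II_pos hppos y).le) h1
    have h3 : 0 < 1 / p := by positivity
    nlinarith
  have hpt : ∀ y, uu p y * (1 + -(1 / p) * Real.log (IS p K y / II p y))
      ≤ IS p K y ^ (-(1 / p)) := by
    intro y
    have h1 : IS p K y ^ (-(1 / p)) = uu p y *
        Real.exp (-(1 / p) * Real.log (IS p K y / II p y)) := by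
      have h2 : IS p K y = II p y * (IS p K y / II p y) := by
        have := (II_pos hppos y).ne'
        field_simp
      conv_lhs => rw [h2]
      rw [Real.mul_rpow (II_pos hppos y).le (div_nonneg (hISK y).le (II_pos hppos y).le)]
      congr 1
      rw [Real.rpow_def_of_pos (div_pos (hISK y) (II_pos hppos y)), mul_comm]
    rw [h1]
    refine mul_le_mul_of_nonneg_left ?_ (uu_pos hppos y).le
    have := Real.add_one_le_exp (-(1 / p) * Real.log (IS p K y / II p y))
    linarith
  set J : ℝ := JJ p (m + 1) with hJdef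
  have hJ : 0 < J := JJ_pos hppos _
  have hq1 : 1 ≤ 1 + 1 / p := by
    have : 0 < 1 / p := by positivity
    linarith
  have hq2 : 1 + 1 / p ≤ 2 := by
    have : 1 / p ≤ 1 := by rw [div_le_one hppos]; exact hp1
    linarith
  -- the final step from a lower bound of the integral
  have hfinal : ∀ F : ℝ, 1 + c / 2 * v ≤ (1 - v) ^ (1 + 1 / p) * F →
      ENNReal.ofReal (J * F)
        ≤ ∫⁻ y : Fin (m + 1) → ℝ, ENNReal.ofReal (Real.exp (dp z y) * IS p K y ^ (-(1 / p))) →
      ENNReal.ofReal (V (m + 1) ^ (1 + 1 / p) * (J * (1 + c / (2 * V (m + 1)) * d)))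
        ≤ MpF p ((fun x => x - z) '' K) := by
    intro F hF hT
    rw [MpF_translate hppos hfinK hkpos z]
    refine le_trans ?_ (mul_le_mul_right hT _)
    rw [← ENNReal.ofReal_mul (by positivity)]
    refine ENNReal.ofReal_le_ofReal ?_
    rw [hvol, Real.mul_rpow hV.le (by linarith), hdv]
    have e1 : c / (2 * V (m + 1)) * (v * V (m + 1)) = c / 2 * v := by field_simp
    rw [e1]
    have h1 : 0 ≤ V (m + 1) ^ (1 + 1 / p) * J := by positivity
    calc V (m + 1) ^ (1 + 1 / p) * (J * (1 + c / 2 * v))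
        = V (m + 1) ^ (1 + 1 / p) * J * (1 + c / 2 * v) := by ring
      _ ≤ V (m + 1) ^ (1 + 1 / p) * J * ((1 - v) ^ (1 + 1 / p) * F) :=
          mul_le_mul_of_nonneg_left hF h1
      _ = _ := by ring
  by_cases hz : ((m + 1 : ℕ) : ℝ) * ∑ i, |z i| ≤ ρ
  · -- the position is near the centroid
    refine hfinal (1 + (1 + c) * (1 + 1 / p) * v) (real1 hc hq1 hq2 hv0 hv1) ?_
    have hg := hgain p hp K hK
    rw [← hD, ← hdd, ← hv, ← hJdef] at hg
    have h0 := hQ1 p hp1 z
    have h1 : (∫⁻ y : Fin (m + 1) → ℝ, ENNReal.ofReal (Real.exp (dp z y) * uu p y))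
        + ∫⁻ y : Fin (m + 1) → ℝ, ENNReal.ofReal (Real.exp (-(ρ * hh y)) * uu p y *
          (-(1 / p) * Real.log (IS p K y / II p y)))
        ≤ ∫⁻ y : Fin (m + 1) → ℝ, ENNReal.ofReal (Real.exp (dp z y) *
          IS p K y ^ (-(1 / p))) := by
      rw [← lintegral_add_left]
      · refine lintegral_mono fun y => ?_
        have hu := uu_pos hppos y
        have hl := hL0 y
        rw [← ENNReal.ofReal_add (by positivity) (by positivity)]
        refine ENNReal.ofReal_le_ofReal ?_
        have h2 : Real.exp (-(ρ * hh y)) ≤ Real.exp (dp z y) := by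
          refine Real.exp_le_exp.2 ?_
          have h3 := abs_dp_le z y
          have h4 := hh_nonneg y
          have h5 : (∑ i, |z i|) * (((m + 1 : ℕ) : ℝ) * hh y) ≤ ρ * hh y := by
            have := mul_le_mul_of_nonneg_right hz h4
            linarith
          have h6 := neg_abs_le (dp z y)
          linarith
        have h7 : Real.exp (-(ρ * hh y)) * uu p y * (-(1 / p) * Real.log (IS p K y / II p y))
            ≤ Real.exp (dp z y) * uu p y * (-(1 / p) * Real.log (IS p K y / II p y)) :=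
          mul_le_mul_of_nonneg_right (mul_le_mul_of_nonneg_right h2 hu.le) hl
        have h8 := mul_le_mul_of_nonneg_left (hpt y) (Real.exp_pos (dp z y)).le
        nlinarith
      · exact ((measurable_exp_dp _).mul (measurable_uu p)).ennreal_ofReal
    refine le_trans ?_ h1
    refine le_trans ?_ (add_le_add h0 hg)
    refine le_trans (ENNReal.ofReal_le_ofReal ?_) ENNReal.ofReal_add_le
    have h2 : 0 ≤ κ * qf z := mul_nonneg hκ.le (qf_nonneg z)
    rw [← hJdef]
    nlinarith
  · -- the position is away from the centroid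
    push Not at hz
    refine hfinal (1 + k) (real2 hc hk0 hq1 hq2 hv0 hv2 hv3) ?_
    have h0 := hQ1 p hp1 z
    refine le_trans ?_ (h0.trans (lintegral_mono fun y => ENNReal.ofReal_le_ofReal ?_))
    · refine ENNReal.ofReal_le_ofReal ?_
      rw [← hJdef]
      have h1 : J ≤ CJ := hJJ p hp1
      have h2 : (∑ i, |z i|) ^ 2 ≤ ((m + 1 : ℕ) : ℝ) * qf z := by
        have := sq_sum_le_card_mul_sum_sq (s := (Finset.univ : Finset (Fin (m + 1))))
          (f := fun i => |z i|)
        simp only [Finset.card_univ, Fintype.card_fin, sq_abs] at this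
        exact this
      have h3 : ρ / ((m + 1 : ℕ) : ℝ) ≤ ∑ i, |z i| := by
        rw [div_le_iff₀ hn]
        linarith
      have h4 : (ρ / ((m + 1 : ℕ) : ℝ)) ^ 2 ≤ ((m + 1 : ℕ) : ℝ) * qf z :=
        (pow_le_pow_left₀ (by positivity) h3 2).trans h2
      have h5 : (ρ / ((m + 1 : ℕ) : ℝ)) ^ 2 / ((m + 1 : ℕ) : ℝ) ≤ qf z := by
        rw [div_le_iff₀ hn]
        linarith
      have h6 : J * k ≤ κ * qf z := by
        calc J * k ≤ CJ * k := mul_le_mul_of_nonneg_right h1 hk0.le
          _ = κ * ((ρ / ((m + 1 : ℕ) : ℝ)) ^ 2 / ((m + 1 : ℕ) : ℝ)) := by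
            rw [hk]; field_simp
          _ ≤ κ * qf z := mul_le_mul_of_nonneg_left h5 hκ.le
      linarith
    · refine mul_le_mul_of_nonneg_left ?_ (Real.exp_pos _).le
      refine le_trans ?_ (hpt y)
      have hu := uu_pos hppos y
      have hl := hL0 y
      nlinarith

end Pool.Agent.Helper41.LP

end
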